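import Pool.Agent.H709.QT.Common

/-!
# The pole of `L₂` at `s = 2` for the quadratic twists of a variety with an involution

Let `X` be a smooth projective variety over a number field `K` with an involution `ι`. For `δ ∈ K`,
`δ ≠ 0`, let `X_δ` be the quadratic twist of `X` by `ι` and `K(√δ)`. For example, if `X` is the double
cover `w² = f` of a surface, then `X_δ` is the surface `δ w² = f`; and if `X` is an elliptic surface
`y² = x³ + a x + b` over any curve over `K`, then `X_δ` is `δ y² = x³ + a x + b`. We have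

`H²(X_δ) = H²(X)⁺ ⊕ H²(X)⁻ ⊗ χ_δ`, `NS(X_δ) ⊗ ℚ = V ⊕ W ⊗ χ_δ`, `V ⊕ W = NS(X) ⊗ ℚ`,

where `H²(X)⁺` is the cohomology of `X / ι` (if `X / ι` is singular, one can pass to a resolution; this
adds only classes of divisors). Let `m = dim H²(X)⁻ - dim W`, and let the defect of a variety be the
difference between the order of the pole of `L₂` at `s = 2` and the rank of the group of the classes of
the divisors defined over `K`. The question is whether `L₂` always has a continuation and the defect
`0`.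

**Theorem.** For any finite set `T` of numbers `δ` in different classes of `K^× / K^×²`:

(1) (no continuation is assumed) with `log |L₂(2 + ε)| / log(1/ε)` in place of the order of the pole, the
sum over `δ ∈ T` of the squares of the differences of the defects of `X_δ` and of `X / ι` is at most
`m² + η`, for all `η > 0` and all small `ε > 0`.

(2) Suppose that the functions `L₂(s, X_δ)`, `δ ∈ T`, have meromorphic continuations to a neighbourhood
of `s = 2`. Then the defects of `X_δ` have the same value for all `δ ∈ T` besides at most `2 m²`. If the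
function for `X / ι` also has a continuation, then the sum over `δ ∈ T` of the squares of the differences
of the defects of `X_δ` and of `X / ι` is at most `m²`; so they are equal for all `δ ∈ T` besides at most
`m²`. In particular, if the answer to the question is yes for `X / ι`, then the pole of `L₂(s, X_δ)` has the
expected order for all but at most `m²` classes of `δ` for which there is a continuation.

(3) If all of `H²(X)⁺` comes from classes of divisors, for example if `X / ι` is a rational or a ruled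
surface, then all this holds with `0` for the defect of `X / ι`, without any hypothesis on `X / ι`. So for
all but at most `m²` classes of `δ` for which `L₂(s, X_δ)` has a meromorphic continuation, it has at `s = 2`
a pole of order exactly the rank of `NS(X_δ / K)`.

The bound depends only on the geometry of `X`: for the K3 surfaces `δ w² = f(x, y, z)`, `f` of degree `6`,
it is `(22 - rank NS(X))²`. (3) applies to these surfaces, to all smooth double planes, and to all elliptic
surfaces with a section over arbitrary curves.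

The definitions are in `Pool.Agent.H709.QT.Defs`.
-/

set_option autoImplicit false

namespace Pool.Agent.Results.MP_1f4fc7_nt.QuadraticTwists

open NumberField IsDedekindDomain Filter Topology Polynomial Pool.Agent.H709.QT
open Pool.Agent.W353.EF (LFun)

section
variable {K : Type} [Field K] [NumberField K] {M N : ℕ}
  (α : HeightOneSpectrum (𝓞 K) → Fin M → ℂ) (β : HeightOneSpectrum (𝓞 K) → Fin N → ℂ)
  {V W : Type} [AddCommGroup V] [Module ℚ V] [AddCommGroup W] [Module ℚ W]
  (ρ : Representation ℚ Gal(AlgebraicClosure K/K) V)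
  (θ : Representation ℚ Gal(AlgebraicClosure K/K) W)

/-- `T` is a finite set of nonzero numbers in different classes of `K^× / K^×²`. -/
def Independent (T : Finset K) : Prop :=
  (∀ δ ∈ T, δ ≠ 0) ∧ ∀ δ ∈ T, ∀ δ' ∈ T, δ ≠ δ' → ¬ IsSquare (δ * δ')

/-- (1): the mean square of the differences of the defects, without continuation. -/
def MeanSquare (T : Finset K) : Prop :=
  ∀ (B₀ : HeightOneSpectrum (𝓞 K) → ℂ[X]) (B : K → HeightOneSpectrum (𝓞 K) → ℂ[X]),
    IsQuotientSystem α B₀ → (∀ δ ∈ T, IsSystem α β δ (B δ)) →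
    (∀ᶠ ε : ℝ in 𝓝[>] 0, LFun B₀ (2 + ε) ≠ 0) ∧
    (∀ δ ∈ T, ∀ᶠ ε : ℝ in 𝓝[>] 0, LFun (B δ) (2 + ε) ≠ 0) ∧
    ∀ η : ℝ, 0 < η → ∀ᶠ ε : ℝ in 𝓝[>] 0,
      ∑ δ ∈ T, ((size (B δ) ε - twistRank ρ θ δ) - (size B₀ ε - quotientRank ρ)) ^ 2 ≤
        ((N - Module.finrank ℚ W : ℕ) : ℝ) ^ 2 + η

/-- (2): the defects of `X_δ`, if there are meromorphic continuations, without a condition on
`X / ι`. -/
def CommonDefect (T : Finset K) : Prop :=
  ∀ B : K → HeightOneSpectrum (𝓞 K) → ℂ[X], (∀ δ ∈ T, IsSystem α β δ (B δ)) →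
    ∀ r : K → ℤ, (∀ δ ∈ T, HasPole (B δ) (r δ)) → ∃ D : ℤ,
      ∑ δ ∈ T, ((r δ - twistRank ρ θ δ) - D) ^ 2 ≤ 2 * ((N - Module.finrank ℚ W : ℕ) : ℤ) ^ 2 ∧
      {δ | δ ∈ T ∧ r δ - twistRank ρ θ δ ≠ D}.ncard ≤ 2 * (N - Module.finrank ℚ W) ^ 2

/-- (2): the differences of the defects of `X_δ` and of `X / ι`, if there are meromorphic
continuations. -/
def PoleOrders (T : Finset K) : Prop :=
  ∀ (B₀ : HeightOneSpectrum (𝓞 K) → ℂ[X]) (B : K → HeightOneSpectrum (𝓞 K) → ℂ[X]),
    IsQuotientSystem α B₀ → (∀ δ ∈ T, IsSystem α β δ (B δ)) →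
    ∀ (r₀ : ℤ) (r : K → ℤ), HasPole B₀ r₀ → (∀ δ ∈ T, HasPole (B δ) (r δ)) →
      ∑ δ ∈ T, ((r δ - twistRank ρ θ δ) - (r₀ - quotientRank ρ)) ^ 2 ≤
        ((N - Module.finrank ℚ W : ℕ) : ℤ) ^ 2 ∧
      {δ | δ ∈ T ∧ r δ - twistRank ρ θ δ ≠ r₀ - quotientRank ρ}.ncard ≤
        (N - Module.finrank ℚ W) ^ 2

/-- (3): the defects, with and without continuation, if `H²(X)⁺` is algebraic. -/
def AlgebraicQuotient (T : Finset K) : Prop :=
  ∀ B : K → HeightOneSpectrum (𝓞 K) → ℂ[X], (∀ δ ∈ T, IsSystem α β δ (B δ)) →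
    (∀ η : ℝ, 0 < η → ∀ᶠ ε : ℝ in 𝓝[>] 0,
      ∑ δ ∈ T, (size (B δ) ε - twistRank ρ θ δ) ^ 2 ≤
        ((N - Module.finrank ℚ W : ℕ) : ℝ) ^ 2 + η) ∧
    ∀ r : K → ℤ, (∀ δ ∈ T, HasPole (B δ) (r δ)) →
      ∑ δ ∈ T, (r δ - twistRank ρ θ δ) ^ 2 ≤ ((N - Module.finrank ℚ W : ℕ) : ℤ) ^ 2 ∧
      {δ | δ ∈ T ∧ r δ ≠ twistRank ρ θ δ}.ncard ≤ (N - Module.finrank ℚ W) ^ 2

end

/-- Let `X` be a smooth projective variety of dimension `d` over `K` with the involution
`ι : (u_i) ↦ (s_i u_i)`, `α v` and `β v` the Frobenius eigenvalues on `H²(X)⁺` and `H²(X)⁻`, and let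
`V` and `W`, with the actions `ρ` and `θ` of the Galois group, be parts of `H²(X)⁺(1)` and `H²(X)⁻(1)`,
for instance the parts `(NS(X) ⊗ ℚ)⁺` and `(NS(X) ⊗ ℚ)⁻`. Let `T` be a finite set of numbers in different
classes of `K^× / K^×²`. Then (1) and (2) hold, and if `dim V = dim H²(X)⁺`, then (3) holds. -/
theorem result (K : Type) [Field K] [NumberField K] (n d M N : ℕ)
    (X : Set (MvPolynomial (Fin n) (𝓞 K))) (s : Fin n → ℤˣ)
    (α : HeightOneSpectrum (𝓞 K) → Fin M → ℂ) (β : HeightOneSpectrum (𝓞 K) → Fin N → ℂ)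
    (hX : ∀ᶠ v in cofinite, IsFrobenius X s d v (α v) (β v))
    (V W : Type) [AddCommGroup V] [Module ℚ V] [FiniteDimensional ℚ V] [AddCommGroup W]
    [Module ℚ W] [FiniteDimensional ℚ W] (ρ : Representation ℚ Gal(AlgebraicClosure K/K) V)
    (θ : Representation ℚ Gal(AlgebraicClosure K/K) W) (hρ : IsPart ρ α) (hθ : IsPart θ β)
    (T : Finset K) (hT : Independent T) :
    MeanSquare α β ρ θ T ∧ CommonDefect α β ρ θ T ∧ PoleOrders α β ρ θ T ∧
      (Module.finrank ℚ V = M → AlgebraicQuotient α β ρ θ T) := by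
  classical
  have hg := hX.mono fun v hv => good_frobenius hv
  have hd : ∀ (δ : K), ((twistRank ρ θ δ : ℕ) : ℝ) = (quotientRank ρ : ℝ) +
      (Module.finrank ℚ (eigenspace θ δ) : ℝ) := fun δ => by
    unfold twistRank quotientRank
    push_cast
    rfl
  have hdZ : ∀ (δ : K), ((twistRank ρ θ δ : ℕ) : ℤ) = (quotientRank ρ : ℤ) +
      (Module.finrank ℚ (eigenspace θ δ) : ℤ) := fun δ => by
    unfold twistRank quotientRank
    push_cast
    rfl
  refine ⟨?_, ?_, ?_, ?_⟩
  · intro B₀ B hB₀ hB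
    choose σ hσ using Pool.Agent.W540.BE.exists_isFrob (F := K)
    refine ⟨(size_of α (hg.mono fun v hv => hv.1) B₀ hB₀.1 hB₀.2).1,
      fun δ hδ => (diff_size σ hσ hg hB₀ (hB δ hδ)).2.1, fun η hη => ?_⟩
    filter_upwards [mean_square hg hθ T hT.1 hT.2 hB₀ hB hη] with ε hε
    refine (le_of_eq (Finset.sum_congr rfl fun δ _ => ?_)).trans hε
    rw [hd]
    ring
  · intro B hB r hr
    obtain ⟨D, hD⟩ := common T (N - Module.finrank ℚ W) (fun δ => r δ - twistRank ρ θ δ)
      ((le_of_eq (Finset.sum_congr rfl fun δ _ => Finset.sum_congr rfl fun δ' _ => by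
        rw [hdZ, hdZ]; ring)).trans (pair_square hg hθ T hT.1 hT.2 hB hr))
    refine ⟨D, hD, ?_⟩
    have h1 := count_le T (fun δ => r δ - twistRank ρ θ δ) (fun _ => D)
    have h2 := h1.trans hD
    exact_mod_cast h2
  · intro B₀ B hB₀ hB r₀ r hr₀ hr
    have h0 := (size_of α (hg.mono fun v hv => hv.1) B₀ hB₀.1 hB₀.2).1
    have h1 := pole_square hg hθ T hT.1 hT.2 hB₀ hB (size_pole h0 hr₀) hr
    exact square_count T (N - Module.finrank ℚ W) (fun δ => r δ - twistRank ρ θ δ)
      (fun _ => r₀ - quotientRank ρ) ((le_of_eq (Finset.sum_congr rfl fun δ _ => by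
        rw [hdZ]; ring)).trans h1)
  · intro hV B hB
    obtain ⟨B₀, hB₀⟩ := exists_quotient (hg.mono fun v hv => hv.1)
    have hs := size_alg (hg.mono fun v hv => hv.1) hρ hV.ge hB₀
    refine ⟨fun η hη => ?_, fun r hr => ?_⟩
    · refine square_close T (y := fun δ ε => size (B δ) ε - size B₀ ε -
          Module.finrank ℚ (eigenspace θ δ)) (x := fun δ ε => size (B δ) ε - twistRank ρ θ δ)
        (fun η' hη' => mean_square hg hθ T hT.1 hT.2 hB₀ hB hη') (fun δ _ => ?_) hη
      have h1 := (hs.neg).add_const (quotientRank ρ : ℝ)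
      rw [neg_add_cancel] at h1
      refine h1.congr fun ε => ?_
      simp only [hd]
      ring
    · have h1 := pole_square hg hθ T hT.1 hT.2 hB₀ hB (r₀ := (quotientRank ρ : ℤ))
        (by exact_mod_cast hs) hr
      have h2 := square_count T (N - Module.finrank ℚ W) (fun δ => r δ)
        (fun δ => (twistRank ρ θ δ : ℤ)) ((le_of_eq (Finset.sum_congr rfl fun δ _ => by
          rw [hdZ]; ring)).trans h1)
      exact h2

end Pool.Agent.Results.MP_1f4fc7_nt.QuadraticTwists
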